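import Pool.Agent.H41.LTW.Colour

set_option autoImplicit false

namespace Pool.Agent.Results.MP_2b2760_co.NoThreeColouring

open Pool.Agent.H41

/-- A tree decomposition of a graph: a finite tree with a bag of vertices at each node, such that
every edge lies inside some bag and the nodes whose bags contain a given vertex induce a nonempty
connected subgraph of the tree. -/
structure TreeDecomposition {V : Type} (G : SimpleGraph V) where
  /-- the nodes -/
  node : Type
  /-- finitely many nodes -/
  finite_node : Finite node
  /-- the tree -/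
  tree : SimpleGraph node
  /-- it is a tree -/
  isTree : tree.IsTree
  /-- the bags -/
  bag : node → Set V
  /-- every edge lies inside some bag -/
  edge_mem : ∀ v w : V, G.Adj v w → ∃ x, v ∈ bag x ∧ w ∈ bag x
  /-- the nodes of a vertex induce a nonempty subtree -/
  subtree : ∀ v : V, (tree.induce {x | v ∈ bag x}).Connected

/-- A layering, given by the index of the layer of each vertex: adjacent vertices lie in equal or
consecutive layers. -/
def IsLayering {V : Type} (G : SimpleGraph V) (lay : V → ℕ) : Prop :=
  ∀ v w : V, G.Adj v w → lay v ≤ lay w + 1 ∧ lay w ≤ lay v + 1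

/-- The layered treewidth (the least `k` as in the next line) is at most `k`: for some tree
decomposition and some layering every bag contains at most `k` vertices of each layer. -/
def LayeredTreewidthLE {V : Type} (G : SimpleGraph V) (k : ℕ) : Prop :=
  ∃ (D : TreeDecomposition G) (lay : V → ℕ), IsLayering G lay ∧
    ∀ x i, {v | v ∈ D.bag x ∧ lay v = i}.ncard ≤ k

/-- The colouring `c` has clustering `C`: every connected component of the subgraph induced by a
colour class has at most `C` vertices. -/
def HasClustering {V : Type} (G : SimpleGraph V) (c : V → Fin 3) (C : ℕ) : Prop :=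
  ∀ (i : Fin 3) (K : (G.induce {v | c v = i}).ConnectedComponent), K.supp.ncard ≤ C

theorem card_le_of_clustering {V : Type} [Finite V] {G : SimpleGraph V} {c : V → Fin 3} {C : ℕ}
    (h : HasClustering G c C) (S : Finset V) (h1 : ∀ u ∈ S, ∀ w ∈ S, c u = c w)
    (h2 : (G.induce (S : Set V)).Connected) : S.card ≤ C := by
  obtain ⟨⟨s, hs⟩⟩ := h2.nonempty
  have hs' : s ∈ S := hs
  have hsub : (S : Set V) ≤ {v | c v = c s} := fun v hv => h1 v hv s hs'
  let K : (G.induce {v | c v = c s}).ConnectedComponent :=
    (G.induce {v | c v = c s}).connectedComponentMk ⟨s, rfl⟩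
  refine le_trans ?_ (h (c s) K)
  have hK : ∀ v (hv : v ∈ (S : Set V)), (⟨v, hsub hv⟩ : {v | c v = c s}) ∈ K.supp := by
    intro v hv
    rw [SimpleGraph.ConnectedComponent.mem_supp_iff]
    refine SimpleGraph.ConnectedComponent.sound ?_
    have h3 : (G.induce (S : Set V)).Reachable ⟨v, hv⟩ ⟨s, hs⟩ := h2.preconnected _ _
    exact h3.map (SimpleGraph.induceHomOfLE G hsub).toHom
  rw [← Set.ncard_coe_finset, ← Set.ncard_image_of_injective K.supp Subtype.val_injective]
  exact Set.ncard_le_ncard (fun v hv => ⟨⟨v, hsub hv⟩, hK v hv, rfl⟩) (Set.toFinite _)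

/-- For every `C` there is a finite graph of layered treewidth at most `3` without a `K_{2,8}`
subgraph that has no `3`-colouring with clustering `C`. -/
theorem result : ∀ C : ℕ, ∃ (V : Type) (_ : Finite V) (G : SimpleGraph V),
    LayeredTreewidthLE G 3 ∧ (completeBipartiteGraph (Fin 2) (Fin 8)).Free G ∧
      ¬ ∃ c : V → Fin 3, HasClustering G c C := by
  classical
  intro C
  let N := (C + 1) * (C + 1)
  let m := C + 1
  let R := m * C + 1
  let _ : Fintype (LTW.V N m R) := Fintype.ofFinite _
  refine ⟨LTW.V N m R, inferInstance, LTW.G N m R, ?_, ?_, ?_⟩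
  · refine ⟨⟨LTW.Nd N m R, inferInstance, LTW.pGraph LTW.root LTW.par, LTW.tree,
      fun x => {v | LTW.inB x v}, fun v w hvw => ?_, fun v => LTW.bag_connected v⟩, LTW.lay,
      fun v w hvw => LTW.adj_lay hvw, fun x i => ?_⟩
    · exact LTW.adj_bag hvw
    · have h1 : {v | v ∈ {v | LTW.inB x v} ∧ LTW.lay v = i} =
          ((Finset.univ.filter fun v : LTW.V N m R => LTW.inB x v ∧ LTW.lay v = i :
            Finset (LTW.V N m R)) : Set (LTW.V N m R)) := by
        ext v
        simp
      show {v | v ∈ {v | LTW.inB x v} ∧ LTW.lay v = i}.ncard ≤ 3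
      rw [h1, Set.ncard_coe_finset]
      refine LTW.width x i _ fun v hv => ?_
      simpa using hv
  · rintro ⟨φ⟩
    have hne : φ (Sum.inl 0) ≠ φ (Sum.inl 1) := fun h => by
      have := φ.injective h
      simp at this
    have hc := LTW.codeg (φ (Sum.inl 0)) (φ (Sum.inl 1)) hne
      (Finset.univ.image (fun j : Fin 8 => φ (Sum.inr j))) (by
        intro w hw
        rw [Finset.mem_image] at hw
        obtain ⟨j, _, rfl⟩ := hw
        exact ⟨φ.toHom.map_adj (by simp), φ.toHom.map_adj (by simp)⟩)
    rw [Finset.card_image_of_injective] at hc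
    · simp at hc
    · intro j j' hjj
      have := φ.injective hjj
      simpa using this
  · rintro ⟨c, hc⟩
    exact LTW.main C rfl rfl rfl c (fun S h1 h2 => card_le_of_clustering hc S h1 h2)

end Pool.Agent.Results.MP_2b2760_co.NoThreeColouring
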